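import Pool.Agent.Helper32.B4.St

/-!
# Project B4, module EX: density of continuous functions
-/

set_option autoImplicit false

open Metric Set Filter Topology MeasureTheory
open scoped ComplexConjugate Interval

namespace Pool.Agent.Helper95.B4

open Pool.Agent.Helper32.B4 Pool.Agent.Helper32.DX Pool.Agent.Helper64.C3

theorem sq_ii {s : ℝ → ℝ} (hs : Measurable s) (hb : ∃ C : ℝ, ∀ u, |s u| ≤ C) :
    IntervalIntegrable (fun u => s u ^ 2) volume 0 1 := by
  obtain ⟨C, hC⟩ := hb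
  refine ii_of_bdd (C := C ^ 2) (hs.pow_const 2).aestronglyMeasurable ?_
  intro u _
  rw [Real.norm_eq_abs, abs_pow]
  exact pow_le_pow_left₀ (abs_nonneg _) (hC u) 2

/-- comparison of the square integrals -/
theorem sq_cmp {s g : ℝ → ℝ} (hs : Measurable s) (hb : ∃ C : ℝ, ∀ u, |s u| ≤ C)
    (hg : Measurable g) (hbg : ∃ C : ℝ, ∀ u, |g u| ≤ C) {δ : ℝ} (hδ : 0 < δ)
    (h : ∫ u in (0:ℝ)..1, (s u - g u) ^ 2 ≤ δ ^ 2) :
    ∫ u in (0:ℝ)..1, g u ^ 2 ≤ (1 + δ) * (∫ u in (0:ℝ)..1, s u ^ 2) + (δ + δ ^ 2) := by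
  have i1 := sq_ii hs hb
  have hbd : ∃ C : ℝ, ∀ u, |s u - g u| ≤ C := by
    obtain ⟨C, hC⟩ := hb
    obtain ⟨C', hC'⟩ := hbg
    exact ⟨C + C', fun u => (abs_sub _ _).trans (add_le_add (hC u) (hC' u))⟩
  have i2 := sq_ii (hs.sub hg) hbd
  have i3 := sq_ii hg hbg
  have key : ∀ u, g u ^ 2 ≤ (1 + δ) * s u ^ 2 + (1 + 1 / δ) * (s u - g u) ^ 2 := by
    intro u
    have h1 : 0 ≤ δ⁻¹ * (δ * s u + (s u - g u)) ^ 2 := by positivity
    have h2 : δ⁻¹ * (δ * s u + (s u - g u)) ^ 2 =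
        δ * s u ^ 2 + 2 * s u * (s u - g u) + δ⁻¹ * (s u - g u) ^ 2 := by
      field_simp
      ring
    rw [h2] at h1
    rw [one_div]
    nlinarith [h1]
  have h2 : ∫ u in (0:ℝ)..1, g u ^ 2 ≤
      ∫ u in (0:ℝ)..1, ((1 + δ) * s u ^ 2 + (1 + 1 / δ) * (s u - g u) ^ 2) :=
    intervalIntegral.integral_mono_on zero_le_one i3 ((i1.const_mul _).add (i2.const_mul _))
      (fun u _ => key u)
  have h3 : ∫ u in (0:ℝ)..1, ((1 + δ) * s u ^ 2 + (1 + 1 / δ) * (s u - g u) ^ 2) =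
      (1 + δ) * (∫ u in (0:ℝ)..1, s u ^ 2) + (1 + 1 / δ) * ∫ u in (0:ℝ)..1, (s u - g u) ^ 2 := by
    have e := intervalIntegral.integral_add (μ := volume) (a := (0:ℝ)) (b := 1)
      (i1.const_mul (1 + δ)) (i2.const_mul (1 + 1 / δ))
    simp only [Pi.sub_apply] at e
    rw [e, intervalIntegral.integral_const_mul, intervalIntegral.integral_const_mul]
  rw [h3] at h2
  have h4 : (1 + 1 / δ) * (∫ u in (0:ℝ)..1, (s u - g u) ^ 2) ≤ (1 + 1 / δ) * δ ^ 2 :=
    mul_le_mul_of_nonneg_left h (by positivity)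
  have h5 : (1 + 1 / δ) * δ ^ 2 = δ + δ ^ 2 := by
    field_simp
    ring
  linarith

/-- a bounded continuous function close to s -/
theorem exists_cont {s : ℝ → ℝ} (hs : Measurable s) (hb : ∃ C : ℝ, ∀ u, |s u| ≤ C) {δ : ℝ}
    (hδ : 0 < δ) : ∃ g : ℝ → ℝ, Continuous g ∧ (∃ C : ℝ, ∀ u, |g u| ≤ C) ∧
      ∫ u in (0:ℝ)..1, (s u - g u) ^ 2 ≤ δ ^ 2 := by
  obtain ⟨C, hC⟩ := hb
  have hm : MemLp s (ENNReal.ofReal 2) (volume.restrict (Ioc (0:ℝ) 1)) :=
    MemLp.of_bound hs.aestronglyMeasurable C (Filter.Eventually.of_forall fun u => by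
      rw [Real.norm_eq_abs]
      exact hC u)
  obtain ⟨g, hg, -⟩ := hm.exists_boundedContinuous_integral_rpow_sub_le (by norm_num)
    (ε := δ ^ 2) (by positivity)
  refine ⟨g, g.continuous, ⟨‖g‖, fun u => ?_⟩, ?_⟩
  · have := g.norm_coe_le_norm u
    rwa [Real.norm_eq_abs] at this
  · rw [intervalIntegral.integral_of_le zero_le_one]
    refine le_trans (le_of_eq ?_) hg
    congr 1
    funext u
    rw [Real.norm_eq_abs, Real.rpow_two, sq_abs]

/-- Module EX. -/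
theorem hEX : StQC → StEX := by
  intro hQC c hc s hs hb
  set N : ℝ := ∫ u in (0:ℝ)..1, s u ^ 2 with hN
  have hN0 : 0 ≤ N := intervalIntegral.integral_nonneg zero_le_one fun u _ => sq_nonneg _
  -- for every δ in (0,1]
  have main : ∀ δ : ℝ, 0 < δ → δ ≤ 1 →
      Qf s ≤ c * N + δ * (|c| * (2 * N + 4) + 100 * (√N + √(2 * N + 2))) := by
    intro δ hδ hδ1
    obtain ⟨g, gc, gb, hg⟩ := exists_cont hs hb hδ
    set G : ℝ := ∫ u in (0:ℝ)..1, g u ^ 2 with hG
    have hG0 : 0 ≤ G := intervalIntegral.integral_nonneg zero_le_one fun u _ => sq_nonneg _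
    have a1 : G ≤ (1 + δ) * N + (δ + δ ^ 2) := sq_cmp hs hb gc.measurable gb hδ hg
    have hg' : ∫ u in (0:ℝ)..1, (g u - s u) ^ 2 ≤ δ ^ 2 := by
      refine le_trans (le_of_eq ?_) hg
      congr 1
      funext u
      ring
    have a2 : N ≤ (1 + δ) * G + (δ + δ ^ 2) := sq_cmp gc.measurable gb hs hb hδ hg'
    have a3 : G ≤ 2 * N + 2 := by nlinarith
    have q := hQC s g hs hb gc.measurable gb
    have q1 := hc g gc
    have r1 : √(∫ u in (0:ℝ)..1, (s u - g u) ^ 2) ≤ δ := by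
      rw [← Real.sqrt_sq hδ.le]
      exact Real.sqrt_le_sqrt hg
    have r2 : √G ≤ √(2 * N + 2) := Real.sqrt_le_sqrt a3
    have q2 : 100 * √(∫ u in (0:ℝ)..1, (s u - g u) ^ 2) * (√N + √G) ≤
        100 * δ * (√N + √(2 * N + 2)) := by
      have : 0 ≤ √N + √G := by positivity
      have h0 : 0 ≤ √(∫ u in (0:ℝ)..1, (s u - g u) ^ 2) := Real.sqrt_nonneg _
      have hs2 : √N + √G ≤ √N + √(2 * N + 2) := by linarith
      exact mul_le_mul (by linarith) hs2 this (by positivity)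
    have q3 : Qf s - Qf g ≤ 100 * δ * (√N + √(2 * N + 2)) :=
      (le_abs_self _).trans (q.trans q2)
    have q4 : c * G ≤ c * N + |c| * (δ * (2 * N + 4)) := by
      have e : |G - N| ≤ δ * (2 * N + 4) := by
        rw [abs_le]
        constructor <;> nlinarith
      have : c * (G - N) ≤ |c| * (δ * (2 * N + 4)) := by
        calc c * (G - N) ≤ |c * (G - N)| := le_abs_self _
          _ = |c| * |G - N| := abs_mul _ _
          _ ≤ _ := mul_le_mul_of_nonneg_left e (abs_nonneg _)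
      linarith
    nlinarith
  refine le_of_forall_pos_le_add fun ε hε => ?_
  set M : ℝ := |c| * (2 * N + 4) + 100 * (√N + √(2 * N + 2)) with hM
  have hM0 : 0 ≤ M := by positivity
  have := main (min 1 (ε / (M + 1))) (by positivity) (min_le_left _ _)
  refine this.trans ?_
  have h1 : min 1 (ε / (M + 1)) * M ≤ ε / (M + 1) * M :=
    mul_le_mul_of_nonneg_right (min_le_right _ _) hM0
  have h2 : ε / (M + 1) * M ≤ ε := by
    rw [div_mul_eq_mul_div, div_le_iff₀ (by linarith)]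
    nlinarith
  linarith

end Pool.Agent.Helper95.B4
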